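import Pool.Agent.H77.KG.Targets

/-!
# Centralizers, normalizers and hulls are definable (board kgr_modules, row CTD)
-/

set_option autoImplicit false

open Set Pool.Agent.H77.BC Pool.Agent.H77.BD Pool.Agent.H77.KG

namespace Pool.Agent.H19.KGR

variable {M : Type} {U : RU M} {Γ : Type} [Group Γ] [Cod M Γ] [DG U Γ]

/-- the intersection of definable subgroups is definable -/
private theorem D_iInf {I : Type} (s : I → Subgroup Γ) (hs : ∀ i, U.D (s i : Set Γ)) :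
    U.D ((⨅ i, s i : Subgroup Γ) : Set Γ) := by
  classical
  obtain ⟨J, hJ⟩ := Pool.Agent.H77.BCP.a_GRD U s hs
  have h1 : (⨅ i, s i) = ⨅ j ∈ J, s j :=
    le_antisymm (le_iInf₂ fun j _ => iInf_le s j) (le_iInf hJ)
  rw [h1]
  have key : ∀ K : Finset I, U.D ((⨅ j ∈ K, s j : Subgroup Γ) : Set Γ) := by
    intro K
    induction K using Finset.induction_on with
    | empty =>
      have h2 : (⨅ j ∈ (∅ : Finset I), s j) = ⊤ := by simp
      rw [h2, Subgroup.coe_top]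
      exact Ful.full
    | insert a K _ ih =>
      rw [Finset.iInf_insert, Subgroup.coe_inf]
      exact D_inter (hs a) ih
  exact key J

private theorem D_cen1 (x : Γ) : U.D {g : Γ | x * g = g * x} :=
  D_eqf (DFn_gmul (DFn_const x) DFn_id) (DFn_gmul DFn_id (DFn_const x))

private theorem D_cen (X : Set Γ) : U.D (Subgroup.centralizer X : Set Γ) := by
  have h1 : Subgroup.centralizer X = ⨅ x : X, Subgroup.centralizer {x.1} := by
    ext g
    rw [Subgroup.mem_iInf, Subgroup.mem_centralizer_iff]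
    constructor
    · intro h x
      rw [Subgroup.mem_centralizer_iff]
      intro y hy
      rw [mem_singleton_iff.1 hy]
      exact h x.1 x.2
    · intro h x hx
      exact Subgroup.mem_centralizer_iff.1 (h ⟨x, hx⟩) x (mem_singleton _)
  rw [h1]
  refine D_iInf _ fun x => ?_
  have h2 : (Subgroup.centralizer {x.1} : Set Γ) = {g : Γ | x.1 * g = g * x.1} := by
    ext g
    rw [SetLike.mem_coe, Subgroup.mem_centralizer_iff]
    exact ⟨fun h => h _ (mem_singleton _), fun h y hy => by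
      rw [mem_singleton_iff.1 hy]; exact h⟩
  rw [h2]
  exact D_cen1 x.1

/-- the centralizer of `x` modulo `N` -/
private def cenN (N : Subgroup Γ) [hN : N.Normal] (x : Γ) : Subgroup Γ where
  carrier := {g | g * x * g⁻¹ * x⁻¹ ∈ N}
  one_mem' := by
    have h : (1 : Γ) * x * 1⁻¹ * x⁻¹ = 1 := by group
    rw [mem_ofPred_eq, h]
    exact N.one_mem
  mul_mem' := by
    intro g h hg hh
    have h1 : g * h * x * (g * h)⁻¹ * x⁻¹ = g * (h * x * h⁻¹ * x⁻¹) * g⁻¹ * (g * x * g⁻¹ * x⁻¹) := by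
      group
    rw [mem_ofPred_eq, h1]
    exact N.mul_mem (hN.conj_mem _ hh g) hg
  inv_mem' := by
    intro g hg
    have h1 : g⁻¹ * x * g⁻¹⁻¹ * x⁻¹ = g⁻¹ * (g * x * g⁻¹ * x⁻¹)⁻¹ * g⁻¹⁻¹ := by group
    rw [mem_ofPred_eq, h1]
    exact hN.conj_mem _ (N.inv_mem hg) _

private theorem D_cenN (N : Subgroup Γ) [N.Normal] (hN : U.D (N : Set Γ)) (X : Set Γ) :
    U.D {g : Γ | ∀ x ∈ X, g * x * g⁻¹ * x⁻¹ ∈ N} := by
  have h1 : {g : Γ | ∀ x ∈ X, g * x * g⁻¹ * x⁻¹ ∈ N} =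
      ((⨅ x : X, cenN N x.1 : Subgroup Γ) : Set Γ) := by
    ext g
    rw [SetLike.mem_coe, Subgroup.mem_iInf]
    exact ⟨fun h x => h x.1 x.2, fun h x hx => h ⟨x, hx⟩⟩
  rw [h1]
  refine D_iInf _ fun x => ?_
  have h2 : DFn U (fun g : Γ => g * x.1 * g⁻¹ * x.1⁻¹) :=
    DFn_gmul (DFn_gmul (DFn_gmul DFn_id (DFn_const _)) (DFn_ginv DFn_id)) (DFn_const _)
  exact D_subst (p := fun g => g ∈ N) hN h2

private theorem D_nrm (H : Subgroup Γ) (hH : U.D (H : Set Γ)) :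
    U.D ((Subgroup.normalizer (H : Set Γ) : Subgroup Γ) : Set Γ) := by
  have h1 : ((Subgroup.normalizer (H : Set Γ) : Subgroup Γ) : Set Γ) =
      {g : Γ | ∀ h, (h ∈ H → g * h * g⁻¹ ∈ H) ∧ (g * h * g⁻¹ ∈ H → h ∈ H)} := by
    ext g
    rw [SetLike.mem_coe, Subgroup.mem_normalizer_iff]
    exact ⟨fun h x => ⟨(h x).1, (h x).2⟩, fun h x => ⟨(h x).1, (h x).2⟩⟩
  rw [h1]
  have h2 : U.D {z : Γ × Γ | z.2 ∈ H} := D_subst (p := fun g => g ∈ H) hH DFn_snd
  have h3 : DFn U (fun z : Γ × Γ => z.1 * z.2 * z.1⁻¹) :=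
    DFn_gmul (DFn_gmul DFn_fst DFn_snd) (DFn_ginv DFn_fst)
  have h4 : U.D {z : Γ × Γ | z.1 * z.2 * z.1⁻¹ ∈ H} := D_subst (p := fun g => g ∈ H) hH h3
  exact D_forall (p := fun g h => (h ∈ H → g * h * g⁻¹ ∈ H) ∧ (g * h * g⁻¹ ∈ H → h ∈ H))
    (D_and (D_imp h2 h4) (D_imp h4 h2))

private theorem D_hul (X : Subgroup Γ) : U.D (hul U X : Set Γ) := by
  unfold hul
  rw [sInf_eq_iInf']
  exact D_iInf _ fun L => L.2.2

theorem pf_CTD : T_CTD := by
  intro M U Γ _ _ _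
  exact ⟨fun X => D_cen X, fun N _ hN X => D_cenN N hN X, fun H hH => D_nrm H hH,
    fun X => D_hul X⟩

end Pool.Agent.H19.KGR
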