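import Pool.Agent.H77.KG.Targets

/-!
# Quotients of definable types (board kgr_modules, row QTY)
-/

set_option autoImplicit false

open Set Pool.Agent.H77.BC Pool.Agent.H77.BD Pool.Agent.H77.KG

namespace Pool.Agent.H19.KGR

variable {M : Type} {U : RU M} {α : Type} [Cod M α]

/-- the equivalence relation on the codes -/
private def stE (M : Type) {α : Type} [Cod M α] (E : Setoid α) : Setoid (Cod.ι M α → M) where
  r x y := (∃ a b : α, x = Cod.c (M := M) a ∧ y = Cod.c (M := M) b ∧ E.r a b) ∨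
    (x ∉ range (Cod.c (M := M) (α := α)) ∧ y ∉ range (Cod.c (M := M) (α := α)))
  iseqv := by
    refine ⟨?_, ?_, ?_⟩
    · intro x
      by_cases h : x ∈ range (Cod.c (M := M) (α := α))
      · obtain ⟨a, rfl⟩ := h
        exact Or.inl ⟨a, a, rfl, rfl, E.refl' a⟩
      · exact Or.inr ⟨h, h⟩
    · rintro x y (⟨a, b, h1, h2, h3⟩ | ⟨h1, h2⟩)
      · exact Or.inl ⟨b, a, h2, h1, E.symm' h3⟩
      · exact Or.inr ⟨h2, h1⟩
    · rintro x y z (⟨a, b, h1, h2, h3⟩ | ⟨h1, h2⟩) (⟨b', c, h4, h5, h6⟩ | ⟨h4, h5⟩)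
      · rw [h2] at h4
        have h7 : b = b' := Cod.inj (M := M) h4
        subst h7
        exact Or.inl ⟨a, c, h1, h5, E.trans' h3 h6⟩
      · exact (h4 ⟨b, h2.symm⟩).elim
      · exact (h2 ⟨b', h4.symm⟩).elim
      · exact Or.inr ⟨h1, h5⟩

private theorem stE_iff (E : Setoid α) (a b : α) :
    (stE M E).r (Cod.c (M := M) a) (Cod.c (M := M) b) ↔ E.r a b := by
  constructor
  · rintro (⟨a', b', h1, h2, h3⟩ | ⟨h1, -⟩)
    · have h4 : a = a' := Cod.inj (M := M) h1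
      have h5 : b = b' := Cod.inj (M := M) h2
      rw [h4, h5]; exact h3
    · exact (h1 ⟨a, rfl⟩).elim
  · intro h
    exact Or.inl ⟨a, b, rfl, rfl, h⟩

private theorem stE_def [Ful U α] (E : Setoid α) (hE : U.D {z : α × α | E.r z.1 z.2}) :
    U.Def (Cod.ι M α ⊕ Cod.ι M α) {z | (stE M E).r (z ∘ Sum.inl) (z ∘ Sum.inr)} := by
  have hful : U.Def (Cod.ι M α) (Cod.c (M := M) '' (univ : Set α)) := Ful.full (U := U) (α := α)
  have e : {z : Cod.ι M α ⊕ Cod.ι M α → M | (stE M E).r (z ∘ Sum.inl) (z ∘ Sum.inr)} =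
      (Cod.c (M := M) '' {z : α × α | E.r z.1 z.2}) ∪
      ({z | z ∘ Sum.inl ∈ (Cod.c (M := M) '' (univ : Set α))ᶜ} ∩
        {z | z ∘ Sum.inr ∈ (Cod.c (M := M) '' (univ : Set α))ᶜ}) := by
    ext z
    constructor
    · rintro (⟨a, b, h1, h2, h3⟩ | ⟨h1, h2⟩)
      · refine Or.inl ⟨(a, b), h3, ?_⟩
        funext i
        rcases i with i | i
        · exact (congrFun h1 i).symm
        · exact (congrFun h2 i).symm
      · refine Or.inr ⟨?_, ?_⟩
        · rintro ⟨a, -, h⟩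
          exact h1 ⟨a, h⟩
        · rintro ⟨a, -, h⟩
          exact h2 ⟨a, h⟩
    · rintro (⟨⟨a, b⟩, h3, rfl⟩ | ⟨h1, h2⟩)
      · exact Or.inl ⟨a, b, rfl, rfl, h3⟩
      · refine Or.inr ⟨?_, ?_⟩
        · rintro ⟨a, h⟩
          exact h1 ⟨a, mem_univ _, h⟩
        · rintro ⟨a, h⟩
          exact h2 ⟨a, mem_univ _, h⟩
  rw [e]
  exact Def_union hE (U.inter _ _ _ (U.pull _ _ _ _ (U.compl _ _ hful))
    (U.pull _ _ _ _ (U.compl _ _ hful)))

theorem pf_QTY (_hEXA : T_EXA) (_hEXB : T_EXB) : T_QTY := by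
  intro C hC M U hU α _ _ E hE
  obtain ⟨M', U', e, q, hC', hX, hq, hg⟩ := hC M U hU (Cod.ι M α) (stE M E) (stE_def E hE)
  have hful : U.Def (Cod.ι M α) (Cod.c (M := M) '' (univ : Set α)) := Ful.full (U := U) (α := α)
  let Q : Quotient E → M' := Quotient.lift (fun a => q (Cod.c (M := M) a)) (fun a b h =>
    (hq _ _).2 ((stE_iff E a b).2 h))
  have hQ : ∀ a, Q (Quotient.mk E a) = q (Cod.c (M := M) a) := fun a => rfl
  have hQi : Function.Injective Q := by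
    intro ξ η
    obtain ⟨a, rfl⟩ := Quotient.exists_rep ξ
    obtain ⟨b, rfl⟩ := Quotient.exists_rep η
    intro h
    exact Quotient.sound ((stE_iff E a b).1 ((hq _ _).1 h))
  have hG : U'.Def (Cod.ι M α ⊕ Unit)
      ((fun p : α × Quotient E => Sum.elim (e ∘ Cod.c (M := M) p.1) (fun _ => Q p.2)) ''
        {p | p.2 = Quotient.mk E p.1}) := by
    have e1 : (fun p : α × Quotient E => Sum.elim (e ∘ Cod.c (M := M) p.1) (fun _ : Unit => Q p.2)) ''
        {p | p.2 = Quotient.mk E p.1} =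
        {z | ∃ x : Cod.ι M α → M, z ∘ Sum.inl = e ∘ x ∧ z (Sum.inr ()) = q x} ∩
        {z | z ∘ Sum.inl ∈ (fun x => e ∘ x) '' (Cod.c (M := M) '' (univ : Set α))} := by
      ext z
      constructor
      · rintro ⟨⟨a, ξ⟩, h, rfl⟩
        have h' : ξ = Quotient.mk E a := h
        subst h'
        exact ⟨⟨Cod.c (M := M) a, rfl, rfl⟩, ⟨_, ⟨a, mem_univ _, rfl⟩, rfl⟩⟩
      · rintro ⟨⟨x, h1, h2⟩, ⟨_, ⟨a, -, rfl⟩, h3⟩⟩
        have h4 : Cod.c (M := M) a = x := hX.inj.comp_left (h3.trans h1)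
        refine ⟨(a, Quotient.mk E a), rfl, ?_⟩
        funext i
        rcases i with i | i
        · exact congrFun h3 i
        · change q (Cod.c (M := M) a) = z (Sum.inr i)
          rw [h4]
          exact h2.symm
    rw [e1]
    exact U'.inter _ _ _ hg (U'.pull _ _ _ _ ((hX.defn _ _).2 hful))
  have hF : U'.Def Unit ((fun (ξ : Quotient E) (_ : Unit) => Q ξ) '' univ) := by
    have e2 : (fun (ξ : Quotient E) (_ : Unit) => Q ξ) '' univ =
        (fun z => z ∘ Sum.inr) ''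
        ((fun p : α × Quotient E => Sum.elim (e ∘ Cod.c (M := M) p.1) (fun _ : Unit => Q p.2)) ''
        {p | p.2 = Quotient.mk E p.1}) := by
      ext z
      constructor
      · rintro ⟨ξ, -, rfl⟩
        obtain ⟨a, rfl⟩ := Quotient.exists_rep ξ
        exact ⟨_, ⟨(a, Quotient.mk E a), rfl, rfl⟩, rfl⟩
      · rintro ⟨_, ⟨p, -, rfl⟩, rfl⟩
        exact ⟨p.2, mem_univ _, rfl⟩
    rw [e2]
    exact U'.image _ _ _ _ hG
  let cq : Cod M' (Quotient E) := ⟨Unit, inferInstance, fun ξ _ => Q ξ, fun _ _ h =>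
    hQi (congrFun h ())⟩
  exact ⟨M', U', e, hX, cq, hC', ⟨hF⟩, hG⟩

end Pool.Agent.H19.KGR
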