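import Pool.Agent.H77.KG.Targets

/-!
# The universe on a definable type (board kgr_modules, row RSA)
-/

set_option autoImplicit false

open Set Pool.Agent.H77.BC Pool.Agent.H77.BD Pool.Agent.H77.KG

namespace Pool.Agent.H19.KGR

variable {M : Type} {U : RU M} {α : Type} [Cod M α]

/-- the code of a family -/
private def dd (M : Type) {α : Type} [Cod M α] (ι : Type) : (ι → α) → (ι × Cod.ι M α → M) :=
  fun x p => Cod.c (M := M) (x p.1) p.2

private theorem dd_inj (ι : Type) : Function.Injective (dd M (α := α) ι) := fun _ _ h =>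
  funext fun i => Cod.inj (M := M) (funext fun k => congrFun h (i, k))

private theorem dd_univ [Ful U α] (ι : Type) [Finite ι] :
    U.Def (ι × Cod.ι M α) (dd M (α := α) ι '' univ) := by
  have e : dd M (α := α) ι '' univ =
      ⋂ i, {z | z ∘ (fun k => (i, k)) ∈ Cod.c (M := M) '' (univ : Set α)} := by
    ext z
    rw [mem_iInter]
    constructor
    · rintro ⟨x, -, rfl⟩ i
      exact ⟨x i, mem_univ _, rfl⟩
    · intro h
      have h' : ∀ i : ι, ∃ a : α, a ∈ univ ∧ Cod.c (M := M) a = z ∘ fun k => (i, k) := h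
      choose x hx using h'
      exact ⟨x, mem_univ _, funext fun p => congrFun (hx p.1).2 p.2⟩
  rw [e]
  exact Def_iInter _ fun i => U.pull _ _ _ _ Ful.full

private theorem dd_compl [Ful U α] (ι : Type) [Finite ι] {A : Set (ι → α)}
    (hA : U.Def (ι × Cod.ι M α) (dd M ι '' A)) : U.Def (ι × Cod.ι M α) (dd M ι '' Aᶜ) := by
  rw [compl_eq_univ_sdiff, image_sdiff (dd_inj ι), sdiff_eq]
  exact U.inter _ _ _ (dd_univ ι) (U.compl _ _ hA)

private theorem dd_point [Ful U α] (ι : Type) [Finite ι] (i : ι) (c : α) :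
    U.Def (ι × Cod.ι M α) (dd M ι '' {x | x i = c}) := by
  have e : dd M ι '' {x : ι → α | x i = c} = dd M (α := α) ι '' univ ∩
      {z | z ∘ (fun k => (i, k)) ∈ Cod.c (M := M) '' ({c} : Set α)} := by
    ext z
    constructor
    · rintro ⟨x, hx, rfl⟩
      exact ⟨⟨x, mem_univ _, rfl⟩, ⟨x i, hx, rfl⟩⟩
    · rintro ⟨⟨x, -, rfl⟩, ⟨a, ha, h⟩⟩
      refine ⟨x, ?_, rfl⟩
      have h2 : a = x i := Cod.inj (M := M) h
      rw [mem_ofPred_eq, ← h2]
      exact ha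
  rw [e]
  exact U.inter _ _ _ (dd_univ ι) (U.pull _ _ _ _ (D_singleton c))

private theorem dd_diag [Ful U α] (ι : Type) [Finite ι] (i j : ι) :
    U.Def (ι × Cod.ι M α) (dd M ι '' {x : ι → α | x i = x j}) := by
  have e : dd M ι '' {x : ι → α | x i = x j} = dd M (α := α) ι '' univ ∩
      ⋂ k, {z | z (i, k) = z (j, k)} := by
    ext z
    rw [mem_inter_iff, mem_iInter]
    constructor
    · rintro ⟨x, hx, rfl⟩
      refine ⟨⟨x, mem_univ _, rfl⟩, fun k => ?_⟩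
      change Cod.c (M := M) (x i) k = Cod.c (M := M) (x j) k
      rw [show x i = x j from hx]
    · rintro ⟨⟨x, -, rfl⟩, h⟩
      refine ⟨x, ?_, rfl⟩
      exact Cod.inj (M := M) (funext fun k => h k)
  rw [e]
  exact U.inter _ _ _ (dd_univ ι) (Def_iInter _ fun k => U.diag _ _ _)

private theorem dd_pull [Ful U α] (ι κ : Type) [Finite ι] [Finite κ] (f : ι → κ)
    (A : Set (ι → α)) (hA : U.Def (ι × Cod.ι M α) (dd M ι '' A)) :
    U.Def (κ × Cod.ι M α) (dd M κ '' {y | y ∘ f ∈ A}) := by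
  have e : dd M κ '' {y | y ∘ f ∈ A} = dd M (α := α) κ '' univ ∩
      {z | z ∘ Prod.map f id ∈ dd M ι '' A} := by
    ext z
    constructor
    · rintro ⟨y, hy, rfl⟩
      exact ⟨⟨y, mem_univ _, rfl⟩, ⟨y ∘ f, hy, rfl⟩⟩
    · rintro ⟨⟨y, -, rfl⟩, ⟨x, hx, h⟩⟩
      refine ⟨y, ?_, rfl⟩
      have h2 : x = y ∘ f := dd_inj (M := M) ι h
      rw [mem_ofPred_eq, ← h2]
      exact hx
  rw [e]
  exact U.inter _ _ _ (dd_univ κ) (U.pull _ _ _ _ hA)

private theorem dd_image (ι κ : Type) [Finite ι] [Finite κ] (f : ι → κ)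
    (A : Set (κ → α)) (hA : U.Def (κ × Cod.ι M α) (dd M κ '' A)) :
    U.Def (ι × Cod.ι M α) (dd M ι '' ((fun y => y ∘ f) '' A)) := by
  have e : dd M ι '' ((fun y => y ∘ f) '' A) = (fun z => z ∘ Prod.map f id) '' (dd M κ '' A) := by
    rw [image_image, image_image]
    rfl
  rw [e]
  exact U.image _ _ _ _ hA

private theorem dd_mono (ι : Type) [Finite ι] (A : Set (ι → α)) (n : ℕ)
    (hA : U.Def (ι × Cod.ι M α) (dd M ι '' A)) (hne : A.Nonempty) :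
    n + 1 ≤ U.rk (ι × Cod.ι M α) (dd M ι '' A) ↔ ∃ B : ℕ → Set (ι → α),
      (∀ i, U.Def (ι × Cod.ι M α) (dd M ι '' (B i)) ∧ (B i).Nonempty ∧ B i ⊆ A ∧
        n ≤ U.rk (ι × Cod.ι M α) (dd M ι '' (B i))) ∧
        ∀ i j, i ≠ j → Disjoint (B i) (B j) := by
  rw [U.monotone _ _ n hA (hne.image _)]
  constructor
  · rintro ⟨B, hB, hd⟩
    have hr : ∀ i, dd M ι '' (dd M ι ⁻¹' B i) = B i := fun i =>
      image_preimage_eq_of_subset ((hB i).2.2.1.trans (image_subset_range _ _))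
    refine ⟨fun i => dd M ι ⁻¹' B i, fun i => ⟨?_, ?_, ?_, ?_⟩, fun i j hij =>
      (hd i j hij).preimage _⟩
    · rw [hr]; exact (hB i).1
    · obtain ⟨z, hz⟩ := (hB i).2.1
      obtain ⟨x, hx, rfl⟩ := (hB i).2.2.1 hz
      exact ⟨x, hz⟩
    · intro x hx
      exact (dd_inj ι).mem_set_image.1 ((hB i).2.2.1 hx)
    · rw [hr]; exact (hB i).2.2.2
  · rintro ⟨B, hB, hd⟩
    exact ⟨fun i => dd M ι '' B i, fun i => ⟨(hB i).1, (hB i).2.1.image _,
      image_mono (hB i).2.2.1, (hB i).2.2.2⟩, fun i j hij =>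
        (disjoint_image_iff (dd_inj ι)).2 (hd i j hij)⟩

private theorem dd_graph {ι κ : Type} [Finite ι] [Finite κ] {A : Set (ι → α)}
    {f : (ι → α) → (κ → α)} (g : (ι × Cod.ι M α → M) → (κ × Cod.ι M α → M))
    (hg : ∀ x, g (dd M ι x) = dd M κ (f x))
    (h : U.Def ((ι ⊕ κ) × Cod.ι M α)
      (dd M (ι ⊕ κ) '' {z | z ∘ Sum.inl ∈ A ∧ z ∘ Sum.inr = f (z ∘ Sum.inl)})) :
    U.Def ((ι × Cod.ι M α) ⊕ (κ × Cod.ι M α))
      {z | z ∘ Sum.inl ∈ dd M ι '' A ∧ z ∘ Sum.inr = g (z ∘ Sum.inl)} := by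
  have e : {z : (ι × Cod.ι M α) ⊕ (κ × Cod.ι M α) → M |
      z ∘ Sum.inl ∈ dd M ι '' A ∧ z ∘ Sum.inr = g (z ∘ Sum.inl)} =
      {y | y ∘ (fun p : (ι ⊕ κ) × Cod.ι M α =>
        Sum.elim (fun i => Sum.inl (i, p.2)) (fun j => Sum.inr (j, p.2)) p.1) ∈
        dd M (ι ⊕ κ) '' {z | z ∘ Sum.inl ∈ A ∧ z ∘ Sum.inr = f (z ∘ Sum.inl)}} := by
    ext y
    constructor
    · rintro ⟨⟨x, hx, h1⟩, h2⟩
      rw [← h1, hg x] at h2
      refine ⟨Sum.elim x (f x), ⟨hx, rfl⟩, ?_⟩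
      funext p
      rcases p with ⟨i | j, k⟩
      · exact congrFun h1 (i, k)
      · exact (congrFun h2 (j, k)).symm
    · rintro ⟨z, ⟨hz1, hz2⟩, h1⟩
      have h3 : dd M ι (z ∘ Sum.inl) = y ∘ Sum.inl :=
        funext fun p => congrFun h1 (Sum.inl p.1, p.2)
      have h4 : dd M κ (z ∘ Sum.inr) = y ∘ Sum.inr :=
        funext fun p => congrFun h1 (Sum.inr p.1, p.2)
      refine ⟨⟨_, hz1, h3⟩, ?_⟩
      rw [← h3, hg, ← hz2, h4]
  rw [e]
  exact U.pull _ _ _ _ h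

private theorem dd_fib {ι κ : Type} {A : Set (ι → α)}
    {f : (ι → α) → (κ → α)} (g : (ι × Cod.ι M α → M) → (κ × Cod.ι M α → M))
    (hg : ∀ x, g (dd M ι x) = dd M κ (f x)) (b : κ → α) :
    {a | a ∈ dd M ι '' A ∧ g a = dd M κ b} = dd M ι '' {a | a ∈ A ∧ f a = b} := by
  ext z
  constructor
  · rintro ⟨⟨x, hx, rfl⟩, h⟩
    rw [hg] at h
    exact ⟨x, ⟨hx, dd_inj κ h⟩, rfl⟩
  · rintro ⟨x, ⟨hx, rfl⟩, rfl⟩
    exact ⟨⟨x, hx, rfl⟩, hg x⟩

private theorem dd_ext {ι κ : Type} (f : (ι → α) → (κ → α)) (a0 : ι → α) :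
    ∃ g : (ι × Cod.ι M α → M) → (κ × Cod.ι M α → M), ∀ x, g (dd M ι x) = dd M κ (f x) := by
  classical
  refine ⟨fun z => if h : ∃ a, dd M ι a = z then dd M κ (f h.choose) else dd M κ (f a0),
    fun x => ?_⟩
  have h : ∃ a : ι → α, dd M ι a = dd M ι x := ⟨x, rfl⟩
  have h2 : h.choose = x := dd_inj ι h.choose_spec
  beta_reduce
  rw [dif_pos h, h2]

private theorem dd_definable (ι κ : Type) [Finite ι] [Finite κ] (A : Set (ι → α))
    (B : Set (κ → α)) (f : (ι → α) → (κ → α)) (n : ℕ)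
    (hA : U.Def (ι × Cod.ι M α) (dd M ι '' A)) (hB : U.Def (κ × Cod.ι M α) (dd M κ '' B))
    (hf : MapsTo f A B)
    (h : U.Def ((ι ⊕ κ) × Cod.ι M α)
      (dd M (ι ⊕ κ) '' {z | z ∘ Sum.inl ∈ A ∧ z ∘ Sum.inr = f (z ∘ Sum.inl)})) :
    U.Def (κ × Cod.ι M α) (dd M κ '' {b | b ∈ B ∧ {a | a ∈ A ∧ f a = b}.Nonempty ∧
      U.rk (ι × Cod.ι M α) (dd M ι '' {a | a ∈ A ∧ f a = b}) = n}) := by
  rcases A.eq_empty_or_nonempty with h0 | ⟨a0, ha0⟩
  · have e : dd M κ '' {b | b ∈ B ∧ {a | a ∈ A ∧ f a = b}.Nonempty ∧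
        U.rk (ι × Cod.ι M α) (dd M ι '' {a | a ∈ A ∧ f a = b}) = n} = ∅ := by
      rw [image_eq_empty, eq_empty_iff_forall_notMem]
      rintro b ⟨-, ⟨a, ha, -⟩, -⟩
      rw [h0] at ha
      exact ha
    rw [e]
    exact Def_empty
  · obtain ⟨g, hg⟩ := dd_ext (M := M) f a0
    have h1 := U.definable (ι × Cod.ι M α) (κ × Cod.ι M α) (dd M ι '' A) (dd M κ '' B) g n hA hB
      (by
        rintro _ ⟨x, hx, rfl⟩
        rw [hg]
        exact ⟨f x, hf hx, rfl⟩) (dd_graph g hg h)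
    have e : dd M κ '' {b | b ∈ B ∧ {a | a ∈ A ∧ f a = b}.Nonempty ∧
        U.rk (ι × Cod.ι M α) (dd M ι '' {a | a ∈ A ∧ f a = b}) = n} =
        {b | b ∈ dd M κ '' B ∧ {a | a ∈ dd M ι '' A ∧ g a = b}.Nonempty ∧
          U.rk (ι × Cod.ι M α) {a | a ∈ dd M ι '' A ∧ g a = b} = n} := by
      ext z
      constructor
      · rintro ⟨b, ⟨hb, h2, h3⟩, rfl⟩
        refine ⟨⟨b, hb, rfl⟩, ?_, ?_⟩
        · rw [dd_fib g hg b]
          exact h2.image _
        · rw [dd_fib g hg b]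
          exact h3
      · rintro ⟨⟨b, hb, rfl⟩, h2, h3⟩
        rw [dd_fib g hg b] at h2 h3
        exact ⟨b, ⟨hb, image_nonempty.1 h2, h3⟩, rfl⟩
    rw [e]
    exact h1

private theorem dd_additive (ι κ : Type) [Finite ι] [Finite κ] (A : Set (ι → α))
    (B : Set (κ → α)) (f : (ι → α) → (κ → α)) (n : ℕ)
    (hA : U.Def (ι × Cod.ι M α) (dd M ι '' A)) (hB : U.Def (κ × Cod.ι M α) (dd M κ '' B))
    (hne : A.Nonempty) (hf : f '' A = B)
    (h : U.Def ((ι ⊕ κ) × Cod.ι M α)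
      (dd M (ι ⊕ κ) '' {z | z ∘ Sum.inl ∈ A ∧ z ∘ Sum.inr = f (z ∘ Sum.inl)}))
    (hn : ∀ b ∈ B, U.rk (ι × Cod.ι M α) (dd M ι '' {a | a ∈ A ∧ f a = b}) = n) :
    U.rk (ι × Cod.ι M α) (dd M ι '' A) = U.rk (κ × Cod.ι M α) (dd M κ '' B) + n := by
  obtain ⟨a0, ha0⟩ := hne
  obtain ⟨g, hg⟩ := dd_ext (M := M) f a0
  refine U.additive (ι × Cod.ι M α) (κ × Cod.ι M α) (dd M ι '' A) (dd M κ '' B) g n hA hB
    ⟨_, mem_image_of_mem _ ha0⟩ ?_ (dd_graph g hg h) ?_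
  · rw [← hf, image_image, image_image]
    exact image_congr fun x _ => hg x
  · rintro _ ⟨b, hb, rfl⟩
    rw [dd_fib g hg b]
    exact hn b hb

theorem pf_RSA : T_RSA := by
  intro M U α _ _
  exact ⟨{
    Def := fun ι _ A => U.Def (ι × Cod.ι M α) (dd M ι '' A)
    rk := fun ι _ A => U.rk (ι × Cod.ι M α) (dd M ι '' A)
    full := fun ι _ => dd_univ ι
    inter := fun ι _ A B hA hB => by
      have e : dd M ι '' (A ∩ B) = dd M ι '' A ∩ dd M ι '' B := image_inter (dd_inj ι)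
      rw [e]
      exact U.inter _ _ _ hA hB
    compl := fun ι _ A hA => dd_compl ι hA
    point := fun ι _ i c => dd_point ι i c
    diag := fun ι _ i j => dd_diag ι i j
    pull := fun ι κ _ _ f A hA => dd_pull ι κ f A hA
    image := fun ι κ _ _ f A hA => dd_image ι κ f A hA
    monotone := fun ι _ A n hA hne => dd_mono ι A n hA hne
    definable := fun ι κ _ _ A B f n hA hB hf h => dd_definable ι κ A B f n hA hB hf h
    additive := fun ι κ _ _ A B f n hA hB hne hf h hn =>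
      dd_additive ι κ A B f n hA hB hne hf h hn },
    fun ι _ A => ⟨Iff.rfl, rfl⟩⟩

end Pool.Agent.H19.KGR
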